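/-
Super-vertices, random part (helper49). The vertices of `G(N, p)` are divided into blocks of `m`
vertices; the blocks that are cliques are kept; two kept blocks are adjacent if all pairs between
them are edges. Given the set of kept blocks this is the random graph with probability `p ^ (m * m)`.
-/
import Pool.Agent.H11.RL.Ind
import Pool.Agent.H9.KR.Gnp
import Pool.Agent.H9.KR.Lo
import Pool.Agent.H82.RG.Marg

set_option autoImplicit false
set_option linter.unusedSectionVars false

open Finset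

namespace Pool.Agent.H49.SV

open Pool.Agent.H9.KR
open Pool.Agent.H11.RL (mob Ind_gen)
open Pool.Agent.H82.RG (pr_unique)

section blocks

variable {N A m : ℕ}

/-- The vertex `e` of the block `a`. -/
def vt (hA : A * m ≤ N) (a : Fin A) (e : Fin m) : Fin N :=
  ⟨(a : ℕ) * m + e, lt_of_lt_of_le (by
    have h1 := a.2
    have h2 := e.2
    calc (a : ℕ) * m + e < a * m + m := by omega
      _ = (a + 1) * m := by ring
      _ ≤ A * m := Nat.mul_le_mul_right _ h1) hA⟩

lemma vt_inj (hA : A * m ≤ N) {a a' : Fin A} {e e' : Fin m} (h : vt hA a e = vt hA a' e') :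
    a = a' ∧ e = e' := by
  have h1 : (a : ℕ) * m + e = a' * m + e' := congrArg Fin.val h
  have hm : 0 < m := lt_of_le_of_lt (Nat.zero_le _) e.2
  have h2 : (a : ℕ) = a' := by
    have e1 : ((a : ℕ) * m + e) / m = a := by
      rw [mul_comm, Nat.mul_add_div hm, Nat.div_eq_of_lt e.2, add_zero]
    have e2 : ((a' : ℕ) * m + e') / m = a' := by
      rw [mul_comm, Nat.mul_add_div hm, Nat.div_eq_of_lt e'.2, add_zero]
    rw [← e1, ← e2, h1]
  have h3 : (e : ℕ) = e' := by
    rw [h2] at h1
    omega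
  exact ⟨Fin.ext h2, Fin.ext h3⟩

/-- The pairs inside a block. -/
def inn (hA : A * m ≤ N) (a : Fin A) : Finset (Sym2 (Fin N)) :=
  (univ : Finset (Fin m)).offDiag.image (fun x => s(vt hA a x.1, vt hA a x.2))

lemma mem_inn {hA : A * m ≤ N} {a : Fin A} {z : Sym2 (Fin N)} :
    z ∈ inn hA a ↔ ∃ e e' : Fin m, e ≠ e' ∧ s(vt hA a e, vt hA a e') = z := by
  simp [inn]

lemma inn_card (hA : A * m ≤ N) (a : Fin A) : (inn hA a).card = m.choose 2 := by
  have h1 : inn hA a = ((univ : Finset (Fin m)).offDiag.image (Function.uncurry Sym2.mk)).image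
      (Sym2.map (vt hA a)) := by
    unfold inn
    rw [image_image]
    rfl
  rw [h1, card_image_of_injective _ (Sym2.map.injective fun e e' h => (vt_inj hA h).2),
    Sym2.card_image_offDiag, card_univ, Fintype.card_fin]

/-- The pairs between two blocks. -/
def crs (hA : A * m ≤ N) (z : Sym2 (Fin A)) : Finset (Sym2 (Fin N)) :=
  univ.filter (fun x => ∃ a a' : Fin A, ∃ e e' : Fin m, s(a, a') = z ∧ s(vt hA a e, vt hA a' e') = x)

lemma mem_crs {hA : A * m ≤ N} {z : Sym2 (Fin A)} {x : Sym2 (Fin N)} :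
    x ∈ crs hA z ↔ ∃ a a' : Fin A, ∃ e e' : Fin m, s(a, a') = z ∧ s(vt hA a e, vt hA a' e') = x := by
  simp only [crs, mem_filter, mem_univ, true_and]

lemma mem_crs' {hA : A * m ≤ N} {a a' : Fin A} {x : Sym2 (Fin N)} :
    x ∈ crs hA s(a, a') ↔ ∃ e e' : Fin m, s(vt hA a e, vt hA a' e') = x := by
  rw [mem_crs]
  constructor
  · rintro ⟨b, b', e, e', h1, h2⟩
    rcases Sym2.eq_iff.1 h1 with ⟨rfl, rfl⟩ | ⟨rfl, rfl⟩
    · exact ⟨e, e', h2⟩
    · exact ⟨e', e, by rw [Sym2.eq_swap]; exact h2⟩
  · rintro ⟨e, e', h2⟩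
    exact ⟨a, a', e, e', rfl, h2⟩

lemma crs_card (hA : A * m ≤ N) {a a' : Fin A} (h : a ≠ a') : (crs hA s(a, a')).card = m * m := by
  have h1 : crs hA s(a, a') = ((univ : Finset (Fin m)) ×ˢ (univ : Finset (Fin m))).image
      (fun x => s(vt hA a x.1, vt hA a' x.2)) := by
    ext x
    rw [mem_crs', mem_image]
    constructor
    · rintro ⟨e, e', h2⟩
      exact ⟨(e, e'), by simp, h2⟩
    · rintro ⟨x, -, h2⟩
      exact ⟨x.1, x.2, h2⟩
  rw [h1, card_image_of_injective, card_product, card_univ, Fintype.card_fin]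
  intro x y hxy
  rcases Sym2.eq_iff.1 hxy with ⟨h2, h3⟩ | ⟨h2, -⟩
  · exact Prod.ext (vt_inj hA h2).2 (vt_inj hA h3).2
  · exact absurd (vt_inj hA h2).1 h

lemma inn_sub (hA : A * m ≤ N) (a : Fin A) : inn hA a ⊆ pairs (Fin N) := by
  intro z hz
  obtain ⟨e, e', h1, rfl⟩ := mem_inn.1 hz
  exact mem_pairs.2 fun h => h1 (vt_inj hA h).2

lemma crs_sub (hA : A * m ≤ N) {z : Sym2 (Fin A)} (hz : z ∈ pairs (Fin A)) :
    crs hA z ⊆ pairs (Fin N) := by
  induction z using Sym2.ind with
  | _ a a' =>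
    intro x hx
    obtain ⟨e, e', rfl⟩ := mem_crs'.1 hx
    exact mem_pairs.2 fun h => mem_pairs.1 hz (vt_inj hA h).1

lemma inn_dis (hA : A * m ≤ N) {a a' : Fin A} (h : a ≠ a') : Disjoint (inn hA a) (inn hA a') := by
  rw [disjoint_left]
  intro x hx hx'
  obtain ⟨e, e', h1, rfl⟩ := mem_inn.1 hx
  obtain ⟨f, f', h2, h3⟩ := mem_inn.1 hx'
  rcases Sym2.eq_iff.1 h3 with ⟨h4, -⟩ | ⟨h4, -⟩
  · exact h (vt_inj hA h4).1.symm
  · exact h (vt_inj hA h4).1.symm

lemma crs_inn (hA : A * m ≤ N) {z : Sym2 (Fin A)} (hz : z ∈ pairs (Fin A)) (a : Fin A) :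
    Disjoint (crs hA z) (inn hA a) := by
  induction z using Sym2.ind with
  | _ b b' =>
    rw [disjoint_left]
    intro x hx hx'
    obtain ⟨e, e', rfl⟩ := mem_crs'.1 hx
    obtain ⟨f, f', h2, h3⟩ := mem_inn.1 hx'
    refine mem_pairs.1 hz ?_
    rcases Sym2.eq_iff.1 h3 with ⟨h4, h5⟩ | ⟨h4, h5⟩
    · exact (vt_inj hA h4).1.symm.trans (vt_inj hA h5).1
    · exact (vt_inj hA h5).1.symm.trans (vt_inj hA h4).1

lemma crs_dis (hA : A * m ≤ N) {z z' : Sym2 (Fin A)} (h : z ≠ z') :
    Disjoint (crs hA z) (crs hA z') := by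
  rw [disjoint_left]
  intro x hx hx'
  obtain ⟨a, a', e, e', h1, rfl⟩ := mem_crs.1 hx
  obtain ⟨b, b', f, f', h2, h3⟩ := mem_crs.1 hx'
  apply h
  rw [← h1, ← h2]
  rcases Sym2.eq_iff.1 h3 with ⟨h4, h5⟩ | ⟨h4, h5⟩
  · rw [(vt_inj hA h4).1, (vt_inj hA h5).1]
  · rw [(vt_inj hA h4).1, (vt_inj hA h5).1, Sym2.eq_swap]

end blocks

section graph

variable {N N' A m : ℕ}

/-- The graph on the blocks. -/
def sg (hA : A * m ≤ N) (ι : Fin N' → Fin A) (G : SimpleGraph (Fin N)) : SimpleGraph (Fin N') where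
  Adj b b' := b ≠ b' ∧ ∀ e e', G.Adj (vt hA (ι b) e) (vt hA (ι b') e')
  symm := ⟨fun _ _ h => ⟨h.1.symm, fun e e' => (h.2 e' e).symm⟩⟩
  loopless := ⟨fun _ h => h.1 rfl⟩

open Classical in
/-- The blocks that are cliques. -/
noncomputable def kept (hA : A * m ≤ N) (S : Finset (Sym2 (Fin N))) : Finset (Fin A) :=
  univ.filter (fun a => inn hA a ⊆ S)

/-- The pairs inside the blocks. -/
def inns (hA : A * m ≤ N) : Finset (Sym2 (Fin N)) := (univ : Finset (Fin A)).biUnion (inn hA)

lemma kept_inter (hA : A * m ≤ N) (S : Finset (Sym2 (Fin N))) :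
    kept hA (S ∩ inns hA) = kept hA S := by
  unfold kept
  ext a
  simp only [mem_filter, mem_univ, true_and, subset_inter_iff, and_iff_left_iff_imp]
  intro _
  exact subset_biUnion_of_mem (inn hA) (mem_univ a)

lemma sub_sg {hA : A * m ≤ N} {ι : Fin N' → Fin A}
    {B : Finset (Sym2 (Fin N'))} (hB : B ⊆ pairs (Fin N')) (G : SimpleGraph (Fin N)) :
    B ⊆ ed (sg hA ι G) ↔ B.biUnion (fun z => crs hA (z.map ι)) ⊆ ed G := by
  rw [biUnion_subset]
  constructor
  · intro h z hz x hx
    induction z using Sym2.ind with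
    | _ b b' =>
      rw [Sym2.map_mk] at hx
      obtain ⟨e, e', rfl⟩ := mem_crs'.1 hx
      have h1 : (sg hA ι G).Adj b b' := mem_ed.1 (h hz)
      exact mem_ed.2 (h1.2 e e')
  · intro h z hz
    have h1 := h z hz
    have h2 := hB hz
    induction z using Sym2.ind with
    | _ b b' =>
      rw [Sym2.map_mk] at h1
      refine mem_ed.2 ⟨mem_pairs.1 h2, fun e e' => mem_ed.1 (h1 (mem_crs'.2 ⟨e, e', rfl⟩))⟩

/-- Given the kept blocks the graph on them is a binomial random graph. -/
theorem cond (hA : A * m ≤ N) {w : SimpleGraph (Fin N) → ℝ} {p : ℝ}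
    (h : RSub w ed (pairs (Fin N)) p) (K : Finset (Fin A)) (ι : Fin N' → Fin A)
    (hι : Function.Injective ι) (B : Finset (Sym2 (Fin N'))) (hB : B ⊆ pairs (Fin N')) :
    pr w (fun G => kept hA (ed G) = K ∧ B ⊆ ed (sg hA ι G)) =
      (p ^ (m * m)) ^ B.card * pr w (fun G => kept hA (ed G) = K) := by
  classical
  set E1 := B.biUnion (fun z => crs hA (z.map ι)) with hE1
  have hmap : ∀ z ∈ B, z.map ι ∈ pairs (Fin A) := by
    intro z hz
    have h2 := hB hz
    induction z using Sym2.ind with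
    | _ b b' =>
      rw [Sym2.map_mk]
      exact mem_pairs.2 fun h3 => mem_pairs.1 h2 (hι h3)
  have hcard : E1.card = m * m * B.card := by
    rw [hE1, card_biUnion, sum_congr rfl (g := fun _ => m * m), sum_const, smul_eq_mul, mul_comm]
    · intro z hz
      have h2 := hmap z hz
      induction z using Sym2.ind with
      | _ b b' =>
        rw [Sym2.map_mk] at h2 ⊢
        exact crs_card hA (mem_pairs.1 h2)
    · intro z _ z' _ hzz
      exact crs_dis hA fun h3 => hzz (Sym2.map.injective hι h3)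
  have hE : E1 ⊆ pairs (Fin N) := biUnion_subset.2 fun z hz => crs_sub hA (hmap z hz)
  have hI : inns hA ⊆ pairs (Fin N) := biUnion_subset.2 fun a _ => inn_sub hA a
  have hd : Disjoint E1 (inns hA) := by
    rw [hE1, inns, disjoint_biUnion_left]
    intro z hz
    rw [disjoint_biUnion_right]
    exact fun a _ => crs_inn hA (hmap z hz) a
  obtain ⟨a, ha⟩ := mob (fun S : Finset (Sym2 (Fin N)) => if kept hA S = K then (1 : ℝ) else 0)
  have g1 := Ind_gen h (fun _ : Unit => inns hA)
    (fun _ S => if kept hA S = K then (1 : ℝ) else 0) (fun _ => a) (fun _ => ha) {()}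
    (fun _ _ => hI) (fun i _ j _ hij => absurd (Subsingleton.elim i j) hij) E1 hE (fun _ _ => hd)
  have g2 := Ind_gen h (fun _ : Unit => inns hA)
    (fun _ S => if kept hA S = K then (1 : ℝ) else 0) (fun _ => a) (fun _ => ha) {()}
    (fun _ _ => hI) (fun i _ j _ hij => absurd (Subsingleton.elim i j) hij) ∅ (empty_subset _)
    (fun _ _ => disjoint_empty_left _)
  simp only [prod_singleton, kept_inter] at g1 g2
  rw [card_empty, pow_zero, one_mul] at g2
  rw [← g2, hcard, pow_mul] at g1
  have e1 : pr w (fun G => kept hA (ed G) = K ∧ B ⊆ ed (sg hA ι G)) =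
      ∑ o, w o * ((if E1 ⊆ ed o then (1 : ℝ) else 0) * if kept hA (ed o) = K then 1 else 0) := by
    unfold pr
    refine sum_congr rfl fun G _ => ?_
    have e2 := sub_sg (ι := ι) hB G (hA := hA)
    by_cases h1 : kept hA (ed G) = K
    · by_cases h2 : E1 ⊆ ed G
      · rw [if_pos ⟨h1, e2.2 h2⟩, if_pos h2, if_pos h1]
        ring
      · rw [if_neg fun h3 => h2 (e2.1 h3.2), if_neg h2]
        ring
    · rw [if_neg fun h3 => h1 h3.1, if_neg h1]
      ring
  have e3 : pr w (fun G => kept hA (ed G) = K) =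
      ∑ o, w o * ((if (∅ : Finset (Sym2 (Fin N))) ⊆ ed o then (1 : ℝ) else 0) *
        if kept hA (ed o) = K then 1 else 0) := by
    unfold pr
    refine sum_congr rfl fun G _ => ?_
    rw [if_pos (empty_subset _)]
    by_cases h1 : kept hA (ed G) = K
    · rw [if_pos h1, if_pos h1]
      ring
    · rw [if_neg h1, if_neg h1]
      ring
  rw [e1, e3]
  exact g1

/-- Given the kept blocks. -/
theorem cond_pr (hA : A * m ≤ N) (p p' : unitInterval) (hp' : (p' : ℝ) = (p : ℝ) ^ (m * m))
    (K : Finset (Fin A)) (ι : Fin N' → Fin A) (hι : Function.Injective ι)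
    (Bad : SimpleGraph (Fin N') → Prop) :
    pr (fun G : SimpleGraph (Fin N) => (SimpleGraph.binomialRandom (Fin N) p).real {G})
      (fun G => kept hA (ed G) = K ∧ Bad (sg hA ι G)) =
      pr (fun G : SimpleGraph (Fin N) => (SimpleGraph.binomialRandom (Fin N) p).real {G})
        (fun G => kept hA (ed G) = K) *
      (SimpleGraph.binomialRandom (Fin N') p').real {G' | Bad G'} := by
  classical
  set w := fun G : SimpleGraph (Fin N) => (SimpleGraph.binomialRandom (Fin N) p).real {G} with hw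
  have h : RSub w ed (pairs (Fin N)) (p : ℝ) := rsub_gnp p
  set Q := pr w (fun G => kept hA (ed G) = K) with hQ
  have hQ0 : 0 ≤ Q := pr_nonneg h.nonneg _
  rcases hQ0.eq_or_lt with hQ1 | hQ1
  · rw [← hQ1, zero_mul]
    refine le_antisymm ?_ (pr_nonneg h.nonneg _)
    rw [hQ1]
    exact pr_mono h.nonneg fun G hG => hG.1
  · set w1 : SimpleGraph (Fin N) → ℝ := fun G => (if kept hA (ed G) = K then w G else 0) / Q with hw1
    have key : ∀ P : SimpleGraph (Fin N) → Prop,
        pr w1 P * Q = pr w (fun G => kept hA (ed G) = K ∧ P G) := by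
      intro P
      unfold pr
      rw [sum_mul]
      refine sum_congr rfl fun G _ => ?_
      simp only [hw1]
      by_cases h1 : kept hA (ed G) = K
      · by_cases h2 : P G
        · rw [if_pos h2, if_pos h1, if_pos ⟨h1, h2⟩, div_mul_cancel₀ _ hQ1.ne']
        · rw [if_neg h2, if_neg fun h3 => h2 h3.2, zero_mul]
      · rw [if_neg (fun h3 : kept hA (ed G) = K ∧ P G => h1 h3.1), if_neg h1]
        split_ifs <;> simp
    have hR : RSub w1 (fun G => ed (sg hA ι G)) (pairs (Fin N')) (p' : ℝ) := by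
      refine ⟨fun G => ?_, fun B hB => ?_⟩
      · simp only [hw1]
        have := h.nonneg G
        split_ifs <;> positivity
      · have h1 := key (fun G => B ⊆ ed (sg hA ι G))
        rw [cond hA h K ι hι B hB, ← hQ, ← hp'] at h1
        exact mul_right_cancel₀ hQ1.ne' h1
    have hu := pr_unique hR (rsub_gnp (V := Fin N') p') (fun G => gnp_ed_sub _)
      (fun G => gnp_ed_sub _) (fun S => ∃ G' : SimpleGraph (Fin N'), ed G' = S ∧ Bad G')
    have hex : ∀ G' : SimpleGraph (Fin N'), (∃ G'' : SimpleGraph (Fin N'), ed G'' = ed G' ∧ Bad G'') ↔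
        Bad G' := by
      intro G'
      constructor
      · rintro ⟨G'', h1, h2⟩
        have : G'' = G' := by
          ext u v
          rw [← mem_ed, ← mem_ed, h1]
        rwa [← this]
      · intro h2
        exact ⟨G', rfl, h2⟩
    have e1 : pr w1 (fun G => Bad (sg hA ι G)) =
        (SimpleGraph.binomialRandom (Fin N') p').real {G' | Bad G'} := by
      rw [real_eq_pr]
      have e2 : pr w1 (fun G => ∃ G' : SimpleGraph (Fin N'), ed G' = ed (sg hA ι G) ∧ Bad G') =
          pr w1 (fun G => Bad (sg hA ι G)) := by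
        unfold pr
        refine sum_congr rfl fun G _ => ?_
        simp only [hex]
      have e3 : pr (fun G' : SimpleGraph (Fin N') =>
          (SimpleGraph.binomialRandom (Fin N') p').real {G'})
          (fun G' => ∃ G'' : SimpleGraph (Fin N'), ed G'' = ed G' ∧ Bad G'') =
          pr (fun G' : SimpleGraph (Fin N') =>
          (SimpleGraph.binomialRandom (Fin N') p').real {G'}) Bad := by
        unfold pr
        refine sum_congr rfl fun G _ => ?_
        simp only [hex]
      rw [← e2, ← e3]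
      exact hu
    rw [← e1, mul_comm, key]

open Classical in
/-- Reduction to the graph on the blocks. -/
theorem super_pr (hA : A * m ≤ N) (p p' : unitInterval) (hp' : (p' : ℝ) = (p : ℝ) ^ (m * m))
    (Q : SimpleGraph (Fin N) → Prop) (Bad : SimpleGraph (Fin N') → Prop)
    (hred : ∀ (G : SimpleGraph (Fin N)) (G' : SimpleGraph (Fin N')) (bl : Fin N' → Fin m → Fin N),
      (∀ a e e', e ≠ e' → G.Adj (bl a e) (bl a e')) →
      (∀ a a', G'.Adj a a' → ∀ e e', G.Adj (bl a e) (bl a' e')) → Q G → Bad G')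
    (hN' : 2 * (N' : ℝ) ≤ A * (p : ℝ) ^ (m.choose 2)) :
    (SimpleGraph.binomialRandom (Fin N) p).real {G | Q G} ≤
      (SimpleGraph.binomialRandom (Fin N') p').real {G' | Bad G'} +
        Real.exp (-(A * (p : ℝ) ^ (m.choose 2) / 8)) := by
  classical
  rw [real_eq_pr]
  set w := fun G : SimpleGraph (Fin N) => (SimpleGraph.binomialRandom (Fin N) p).real {G} with hw
  have h : RSub w ed (pairs (Fin N)) (p : ℝ) := rsub_gnp p
  set q : ℝ := (p : ℝ) ^ (m.choose 2) with hq
  have hq0 : 0 ≤ q := pow_nonneg p.2.1 _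
  set ε := (SimpleGraph.binomialRandom (Fin N') p').real {G' | Bad G'} with hε
  have hε0 : 0 ≤ ε := MeasureTheory.measureReal_nonneg
  -- few kept blocks
  have hlow := lower h p.2.1 p.2.2 (univ : Finset (Fin A)) (inn hA) (fun a _ => inn_sub hA a)
    (fun a _ a' _ haa => inn_dis hA haa) q hq0 (fun a _ => by rw [inn_card]) (q * A / 2)
    (by rw [card_univ, Fintype.card_fin])
  rw [card_univ, Fintype.card_fin] at hlow
  -- the choice of the blocks
  have hι : ∀ K : Finset (Fin A), ∃ ι : Fin N' → Fin A, N' ≤ K.card →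
      Function.Injective ι ∧ ∀ b, ι b ∈ K := by
    intro K
    by_cases hK : N' ≤ K.card
    · exact ⟨K.orderEmbOfCardLe hK, fun _ => ⟨(K.orderEmbOfCardLe hK).injective,
        K.orderEmbOfCardLe_mem hK⟩⟩
    · rcases Nat.eq_zero_or_pos N' with h0 | h0
      · exact absurd (by omega) hK
      · rcases Nat.eq_zero_or_pos A with h1 | h1
        · subst h1
          have : (N' : ℝ) ≤ 0 := by
            have := hN'
            rw [Nat.cast_zero, zero_mul] at this
            linarith
          have h2 : N' ≤ 0 := by exact_mod_cast this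
          omega
        · exact ⟨fun _ => ⟨0, h1⟩, fun h2 => absurd h2 hK⟩
  choose ι hι2 using hι
  have hsub : ∀ G : SimpleGraph (Fin N), Q G →
      (((univ : Finset (Fin A)).filter (fun a => inn hA a ⊆ ed G)).card : ℝ) ≤ q * A / 2 ∨
      ∃ K ∈ (univ : Finset (Finset (Fin A))).filter (fun K => N' ≤ K.card),
        kept hA (ed G) = K ∧ Bad (sg hA (ι K) G) := by
    intro G hG
    by_cases hK : N' ≤ (kept hA (ed G)).card
    · right
      obtain ⟨hi, hm⟩ := hι2 _ hK
      refine ⟨kept hA (ed G), mem_filter.2 ⟨mem_univ _, hK⟩, rfl, ?_⟩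
      refine hred G _ (fun b e => vt hA (ι (kept hA (ed G)) b) e) ?_ ?_ hG
      · intro b e e' hee
        have h1 : inn hA (ι (kept hA (ed G)) b) ⊆ ed G := (mem_filter.1 (hm b)).2
        exact mem_ed.1 (h1 (mem_inn.2 ⟨e, e', hee, rfl⟩))
      · intro b b' hbb e e'
        exact hbb.2 e e'
    · left
      have h1 : ((kept hA (ed G)).card : ℝ) ≤ N' := by
        have : (kept hA (ed G)).card ≤ N' := by omega
        exact_mod_cast this
      have h2 : (kept hA (ed G)).card =
          ((univ : Finset (Fin A)).filter (fun a => inn hA a ⊆ ed G)).card := rfl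
      rw [← h2]
      linarith
  have h1 : pr w Q ≤ pr w (fun G =>
      (((univ : Finset (Fin A)).filter (fun a => inn hA a ⊆ ed G)).card : ℝ) ≤ q * A / 2) +
      ∑ K ∈ (univ : Finset (Finset (Fin A))).filter (fun K => N' ≤ K.card),
        pr w (fun G => kept hA (ed G) = K ∧ Bad (sg hA (ι K) G)) := by
    refine (pr_mono h.nonneg hsub).trans ((pr_or_le h.nonneg _ _).trans ?_)
    exact add_le_add le_rfl (pr_exists_le h.nonneg _ _)
  have h2 : ∑ K ∈ (univ : Finset (Finset (Fin A))).filter (fun K => N' ≤ K.card),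
        pr w (fun G => kept hA (ed G) = K ∧ Bad (sg hA (ι K) G)) ≤ ε := by
    calc ∑ K ∈ (univ : Finset (Finset (Fin A))).filter (fun K => N' ≤ K.card),
        pr w (fun G => kept hA (ed G) = K ∧ Bad (sg hA (ι K) G)) =
        ∑ K ∈ (univ : Finset (Finset (Fin A))).filter (fun K => N' ≤ K.card),
          pr w (fun G => kept hA (ed G) = K) * ε := by
          refine sum_congr rfl fun K hK => ?_
          exact cond_pr hA p p' hp' K (ι K) (hι2 K (mem_filter.1 hK).2).1 Bad
      _ ≤ ∑ K : Finset (Fin A), pr w (fun G => kept hA (ed G) = K) * ε := by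
          refine sum_le_sum_of_subset_of_nonneg (filter_subset _ _) fun K _ _ => ?_
          exact mul_nonneg (pr_nonneg h.nonneg _) hε0
      _ = 1 * ε := by
          rw [← sum_mul]
          congr 1
          unfold pr
          rw [sum_comm, ← h.total]
          refine sum_congr rfl fun G _ => ?_
          rw [sum_eq_single (kept hA (ed G))]
          · rw [if_pos rfl]
          · intro K _ hK
            rw [if_neg fun h5 => hK h5.symm]
          · intro h5
            exact absurd (mem_univ _) h5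
      _ = ε := one_mul _
  have h3 : Real.exp (-(q * A / 8)) = Real.exp (-(A * q / 8)) := by
    congr 1
    ring
  rw [h3] at hlow
  linarith

end graph

end Pool.Agent.H49.SV
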