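/-
Super-vertices, deterministic part (helper49). `m` rows of the same group are glued together: row
`i` goes to row `sr R m i`, which has the same remainder mod `R`, at the place `se R m i < m`.
-/
import Pool.Agent.H49.RG.Stmt

set_option autoImplicit false

namespace Pool.Agent.H49.SV

open Finset
open Pool.Agent.H49.RG (GroupRefutation)

/-- The super row of the row `i`. -/
def sr (R m i : ℕ) : ℕ := (i / R / m) * R + i % R

/-- The place of the row `i` in its super row. -/
def se (R m i : ℕ) : ℕ := (i / R) % m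

lemma sr_mod {R : ℕ} (m i : ℕ) : sr R m i % R = i % R := by
  unfold sr
  rw [Nat.mul_add_mod_self_right, Nat.mod_mod]

lemma sr_div {R : ℕ} (hR : 0 < R) (m i : ℕ) : sr R m i / R = i / R / m := by
  unfold sr
  rw [Nat.add_div_of_dvd_right (Dvd.intro_left _ rfl), Nat.mul_div_cancel _ hR,
    Nat.div_eq_of_lt (Nat.mod_lt i hR), add_zero]

lemma sr_inj {R m i j : ℕ} (hR : 0 < R) (h : sr R m i = sr R m j) (h' : se R m i = se R m j) :
    i = j := by
  have h1 : i % R = j % R := by rw [← sr_mod m i, ← sr_mod m j, h]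
  have h2 : i / R / m = j / R / m := by rw [← sr_div hR, ← sr_div hR, h]
  have h3 : i / R % m = j / R % m := h'
  have h4 : i / R = j / R := by
    rw [← Nat.div_add_mod (i / R) m, ← Nat.div_add_mod (j / R) m, h2, h3]
  rw [← Nat.div_add_mod i R, ← Nat.div_add_mod j R, h4, h1]

lemma sr_lt {R m i k k' : ℕ} (hR : 0 < R) (hi : i < k) (hk : R * (k / (R * m) + 1) ≤ k') :
    sr R m i < k' := by
  refine lt_of_lt_of_le ?_ hk
  have h1 : i / R / m ≤ k / (R * m) := by
    rw [Nat.div_div_eq_div_mul]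
    exact Nat.div_le_div_right hi.le
  have h2 := Nat.mod_lt i hR
  unfold sr
  calc i / R / m * R + i % R < i / R / m * R + R := by omega
    _ = R * (i / R / m + 1) := by ring
    _ ≤ R * (k / (R * m) + 1) := Nat.mul_le_mul_left _ (by omega)

theorem transfer {N N' k k' R m q S : ℕ} (hR : 0 < R) (hm : 0 < m)
    (hk : R * (k / (R * m) + 1) ≤ k') (hk2 : 2 ≤ k') (G : SimpleGraph (Fin N))
    (G' : SimpleGraph (Fin N')) (bl : Fin N' → Fin m → Fin N)
    (h1 : ∀ a e e', e ≠ e' → G.Adj (bl a e) (bl a e'))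
    (h2 : ∀ a a', G'.Adj a a' → ∀ e e', G.Adj (bl a e) (bl a' e'))
    {f : Fin S → (Fin k → Fin N) → ℝ} (h : GroupRefutation G R q S f) :
    ∃ f', GroupRefutation (k := k') G' R q S f' := by
  set U : (Fin k' → Fin N') → Fin k → Fin N := fun u i =>
    bl (u ⟨sr R m i, sr_lt hR i.2 hk⟩) ⟨se R m i, Nat.mod_lt _ hm⟩ with hU
  refine ⟨fun s u => f s (U u), ?_, ?_, ?_⟩
  · intro s
    obtain ⟨F, hF1, hF2⟩ := h.split s
    refine ⟨fun a u => F a (U u), ?_, fun u => hF2 (U u)⟩
    intro a u u' huu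
    refine hF1 a _ _ fun i hi => ?_
    simp only [hU]
    rw [huu ⟨sr R m i, sr_lt hR i.2 hk⟩ (by rw [sr_mod]; exact hi)]
  · intro s
    obtain ⟨P, i, j, hP1, hP2, hij, hP3⟩ := h.step s
    by_cases hs : sr R m i = sr R m j
    · have he : se R m i ≠ se R m j := fun he => hij (Fin.ext (sr_inj hR hs he))
      refine ⟨P, ⟨0, by omega⟩, ⟨1, by omega⟩, hP1, hP2, by simp, fun u hu _ => ?_⟩
      refine hP3 (U u) hu ?_
      simp only [hU]
      have e1 : (⟨sr R m i, sr_lt hR i.2 hk⟩ : Fin k') = ⟨sr R m j, sr_lt hR j.2 hk⟩ := Fin.ext hs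
      rw [e1]
      exact h1 _ _ _ fun he' => he (congrArg Fin.val he')
    · refine ⟨P, ⟨sr R m i, sr_lt hR i.2 hk⟩, ⟨sr R m j, sr_lt hR j.2 hk⟩, hP1, hP2,
        fun he => hs (congrArg Fin.val he), fun u hu hadj => ?_⟩
      exact hP3 (U u) hu (h2 _ _ hadj _ _)
  · obtain ⟨s, hs⟩ := h.last
    exact ⟨s, fun u => hs (U u)⟩

end Pool.Agent.H49.SV
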