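/-
Super-vertices, the reduction with numbers (helper49).
-/
import Pool.Agent.H49.SV.Tr
import Pool.Agent.H49.SV.Pr

set_option autoImplicit false

namespace Pool.Agent.H49.SV

open Finset
open Pool.Agent.H49.RG (GroupRefutation)

/-- Coarser groups. -/
theorem coarse {N k q S R C : ℕ} (hR : 0 < R) (hC : R ∣ C) (G : SimpleGraph (Fin N))
    {f : Fin S → (Fin k → Fin N) → ℝ} (h : GroupRefutation G C q S f) : GroupRefutation G R q S f := by
  classical
  refine ⟨fun s => ?_, h.step, h.last⟩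
  obtain ⟨F, hF1, hF2⟩ := h.split s
  refine ⟨fun b u => ∑ a ∈ univ.filter (fun a : Fin C => (a : ℕ) % R = b), F a u, ?_, ?_⟩
  · intro b u u' huu
    refine sum_congr rfl fun a ha => hF1 a u u' fun i hi => huu i ?_
    rw [← (mem_filter.1 ha).2, ← hi, Nat.mod_mod_of_dvd _ hC]
  · intro u
    rw [hF2 u]
    have h1 := sum_fiberwise (univ : Finset (Fin C))
      (fun a => (⟨(a : ℕ) % R, Nat.mod_lt _ hR⟩ : Fin R)) (fun a => F a u)
    rw [← h1]
    refine sum_congr rfl fun b _ => sum_congr ?_ fun _ _ => rfl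
    ext a
    simp only [mem_filter, mem_univ, true_and]
    constructor
    · intro h2
      rw [← h2]
    · intro h2
      exact Fin.ext h2

theorem Stp_exp (M N : ℕ) (hM : 200 ≤ M) (hN : N ≤ (M + 1) ^ 2) :
    Real.exp (-(M / 4 : ℝ)) * (2 * N) ≤ 1 := by
  have h1 := Real.pow_div_factorial_le_exp (x := (M / 4 : ℝ)) (by positivity) 4
  have hMr : (200 : ℝ) ≤ M := by exact_mod_cast hM
  have hNr : (N : ℝ) ≤ (M + 1) ^ 2 := by exact_mod_cast hN
  have h2 : (2 * N : ℝ) ≤ Real.exp (M / 4) := by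
    refine le_trans ?_ h1
    have h3 : ((M : ℝ) / 4) ^ 4 / (Nat.factorial 4 : ℕ) = (M : ℝ) ^ 4 / 6144 := by
      norm_num [Nat.factorial]
      ring
    rw [h3, le_div_iff₀ (by norm_num)]
    have h4 : 111 * ((M : ℝ) + 1) ≤ M ^ 2 := by nlinarith
    have h5 : (111 * ((M : ℝ) + 1)) ^ 2 ≤ (M ^ 2) ^ 2 := pow_le_pow_left₀ (by positivity) h4 2
    nlinarith [sq_nonneg ((M : ℝ) + 1)]
  rw [Real.exp_neg, inv_mul_le_iff₀ (Real.exp_pos _), mul_one]
  exact h2

theorem step (c m z k N : ℕ) (p p' : unitInterval) (hc : 1 ≤ c) (hm : 1 ≤ m)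
    (hk : 1024 * c * m * m ≤ k) (hN1 : (4 * m) ^ 8 ≤ N) (hN2 : 2 ^ 20 ≤ N)
    (hp : (N : ℝ) ^ (-(c : ℝ) / k) ≤ p) (hp' : (p' : ℝ) = (p : ℝ) ^ (m * m)) (N' k' R : ℕ)
    (hN' : N' = Nat.sqrt N) (hR : R = 1024 * c * m) (hk' : k' = R * (k / (R * m) + 1))
    (hdir : (SimpleGraph.binomialRandom (Fin N') p').real
      {G | ∃ S q : ℕ, S ≤ N' ^ (4 * z) ∧ R * q ≤ k' ∧
        ∃ f, GroupRefutation (k := k') G R q S f} ≤ 1 / (N' : ℝ) ^ 4) :
    (SimpleGraph.binomialRandom (Fin N) p).real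
      {G | ∃ S q : ℕ, S ≤ N ^ z ∧ R * m * q ≤ k ∧
        ∃ f, GroupRefutation (k := k) G R q S f} ≤ 1 / N := by
  have hcm : 1 ≤ c * m := Nat.mul_pos hc hm
  have hRpos : 0 < R := by rw [hR, mul_assoc]; omega
  have hRm : 0 < R * m := Nat.mul_pos hRpos hm
  have hk0 : 0 < k := lt_of_lt_of_le (by positivity) hk
  have hN0 : 0 < N := by omega
  have hsq1 : N' * N' ≤ N := by rw [hN']; exact Nat.sqrt_le N
  have hsq2 : N < (N' + 1) * (N' + 1) := by rw [hN']; exact Nat.lt_succ_sqrt N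
  have hN'1 : 1024 ≤ N' := by
    rw [hN', Nat.le_sqrt]
    exact le_trans (by norm_num) hN2
  have hN'4 : 2 * N ≤ N' ^ 4 := by
    have h1 : N' + 1 ≤ 2 * N' := by omega
    have h2 : (N' + 1) * (N' + 1) ≤ (2 * N') * (2 * N') := Nat.mul_le_mul h1 h1
    have h3 : 8 * (N' * N') ≤ N' ^ 4 := by
      calc 8 * (N' * N') ≤ (N' * N') * (N' * N') := Nat.mul_le_mul_right _ (by nlinarith)
        _ = N' ^ 4 := by ring
    nlinarith
  set A : ℕ := N / m with hA
  have hAm : A * m ≤ N := Nat.div_mul_le_self N m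
  have hmN : m ≤ N := by
    refine le_trans ?_ hN1
    calc m ≤ 4 * m := by omega
      _ ≤ (4 * m) ^ 8 := Nat.le_self_pow (by norm_num) _
  have hA1 : 1 ≤ A := (Nat.one_le_div_iff hm).2 hmN
  have hA2 : N ≤ 2 * m * A := by
    have h1 : N < m * (A + 1) := Nat.lt_mul_div_succ N hm
    have h2 : m * (A + 1) ≤ m * (2 * A) := Nat.mul_le_mul_left _ (by omega)
    have h3 : m * (2 * A) = 2 * m * A := by ring
    omega
  have hNr : (1 : ℝ) ≤ N := by exact_mod_cast hN0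
  have hNr0 : (0 : ℝ) < N := by linarith
  have hkr : (0 : ℝ) < k := by exact_mod_cast hk0
  have hmr : (1 : ℝ) ≤ m := by exact_mod_cast hm
  -- the number y
  obtain ⟨y, hy0, hy8⟩ : ∃ y : ℝ, 0 < y ∧ y ^ 8 = N := by
    refine ⟨(N : ℝ) ^ ((1 : ℝ) / 8), Real.rpow_pos_of_pos hNr0 _, ?_⟩
    rw [← Real.rpow_natCast, ← Real.rpow_mul hNr0.le]
    norm_num
  have hy4 : 4 * (m : ℝ) ≤ y := by
    have h1 : (4 * (m : ℝ)) ^ 8 ≤ y ^ 8 := by
      rw [hy8]
      exact_mod_cast hN1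
    exact le_of_pow_le_pow_left₀ (by norm_num) hy0.le h1
  have hy1 : 1 ≤ y := by linarith
  have hN'y : (N' : ℝ) ≤ y ^ 4 := by
    have h1 : (N' : ℝ) ^ 2 ≤ (y ^ 4) ^ 2 := by
      have h2 : (N' : ℝ) * N' ≤ N := by exact_mod_cast hsq1
      calc (N' : ℝ) ^ 2 = N' * N' := by ring
        _ ≤ N := h2
        _ = (y ^ 4) ^ 2 := by rw [← hy8]; ring
    exact le_of_pow_le_pow_left₀ (by norm_num) (by positivity) h1
  have hpm : 1 / y ≤ (p : ℝ) ^ (m.choose 2) := by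
    have hp0 : 0 < (N : ℝ) ^ (-(c : ℝ) / k) := Real.rpow_pos_of_pos hNr0 _
    refine le_trans ?_ (pow_le_pow_left₀ hp0.le hp _)
    rw [← Real.rpow_natCast, ← Real.rpow_mul hNr0.le]
    have h1 : 1 / y = (N : ℝ) ^ (-(1 / 8 : ℝ)) := by
      rw [← hy8, ← Real.rpow_natCast, ← Real.rpow_mul hy0.le, one_div]
      norm_num
      rw [Real.rpow_neg_one]
    rw [h1]
    apply Real.rpow_le_rpow_of_exponent_le hNr
    have h2 : 8 * (c * m.choose 2) ≤ k := by
      refine le_trans ?_ hk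
      have h3 : m.choose 2 ≤ m * m := by
        rw [← pow_two]
        exact Nat.choose_le_pow m 2
      calc 8 * (c * m.choose 2) ≤ 8 * (c * (m * m)) := by gcongr
        _ ≤ 1024 * (c * (m * m)) := Nat.mul_le_mul_right _ (by norm_num)
        _ = _ := by ring
    have h3 : 8 * ((c : ℝ) * (m.choose 2 : ℕ)) ≤ k := by exact_mod_cast h2
    have h4 : -(c : ℝ) / k * (m.choose 2 : ℕ) = -((c * (m.choose 2 : ℕ)) / k) := by ring
    rw [h4, neg_le_neg_iff, div_le_iff₀ hkr]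
    linarith
  have hNA : 2 * (N' : ℝ) ≤ A * (p : ℝ) ^ (m.choose 2) := by
    have h1 : y ^ 8 ≤ 2 * m * A := by
      rw [hy8]
      exact_mod_cast hA2
    have h2 : (A : ℝ) * (1 / y) ≤ A * (p : ℝ) ^ (m.choose 2) :=
      mul_le_mul_of_nonneg_left hpm (Nat.cast_nonneg _)
    refine le_trans ?_ h2
    rw [mul_one_div, le_div_iff₀ hy0]
    have h3 : 2 * (N' : ℝ) * y ≤ 2 * y ^ 5 := by nlinarith
    refine h3.trans ?_
    have h4 : 4 * m * y ^ 5 ≤ y ^ 8 := by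
      calc 4 * m * y ^ 5 ≤ y * y ^ 5 := mul_le_mul_of_nonneg_right hy4 (by positivity)
        _ = y ^ 6 := by ring
        _ ≤ y ^ 8 := pow_le_pow_right₀ hy1 (by norm_num)
    have h5 : 2 * m * (2 * y ^ 5) ≤ 2 * m * (A : ℝ) := by linarith
    exact le_of_mul_le_mul_left h5 (by positivity)
  have hsup := super_pr hAm p p' hp'
    (fun G => ∃ S q : ℕ, S ≤ N ^ z ∧ R * m * q ≤ k ∧ ∃ f, GroupRefutation (k := k) G R q S f)
    (fun G => ∃ S q : ℕ, S ≤ N' ^ (4 * z) ∧ R * q ≤ k' ∧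
        ∃ f, GroupRefutation (k := k') G R q S f) ?_ hNA
  · refine hsup.trans ?_
    have e1 : Real.exp (-(A * (p : ℝ) ^ (m.choose 2) / 8)) ≤ 1 / (2 * N) := by
      have h1 : Real.exp (-(A * (p : ℝ) ^ (m.choose 2) / 8)) ≤ Real.exp (-(N' / 4 : ℝ)) := by
        rw [Real.exp_le_exp]
        linarith
      refine h1.trans ?_
      rw [le_div_iff₀ (by positivity)]
      exact Stp_exp N' N (by omega) (by rw [pow_two]; exact hsq2.le)
    have e2 : 1 / (N' : ℝ) ^ 4 ≤ 1 / (2 * N) := by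
      have h1 : (2 * N : ℝ) ≤ (N' : ℝ) ^ 4 := by exact_mod_cast hN'4
      exact one_div_le_one_div_of_le (by positivity) h1
    have e3 : 1 / (2 * (N : ℝ)) + 1 / (2 * N) = 1 / N := by
      field_simp
      norm_num
    linarith [hdir.trans e2]
  · rintro G G' bl h1 h2 ⟨S, q, hS, hq, f, hf⟩
    obtain ⟨f', hf'⟩ := transfer hRpos hm hk'.ge (by
      rw [hk']
      have h3 : R * 1 ≤ R * (k / (R * m) + 1) := Nat.mul_le_mul_left _ (Nat.le_add_left 1 _)
      have h4 : 1024 ≤ R := by rw [hR, mul_assoc]; omega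
      omega) G G' bl h1 h2 hf
    refine ⟨S, q, ?_, ?_, f', hf'⟩
    · refine hS.trans ?_
      rw [pow_mul]
      exact Nat.pow_le_pow_left (by omega) _
    · have h3 : q ≤ k / (R * m) := (Nat.le_div_iff_mul_le hRm).2 (by rw [mul_comm]; exact hq)
      rw [hk']
      exact Nat.mul_le_mul_left _ (by omega)

end Pool.Agent.H49.SV
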