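/-
Super-vertices, final step (helper49): from a theorem for `k` at most a small multiple of `log N`
to all `k ≤ K log N`.
-/
import Pool.Agent.H49.SV.Stp

set_option autoImplicit false

namespace Pool.Agent.H49.SV

open Finset
open Pool.Agent.H49.RG (GroupRefutation)

/-- The base theorem (for `k` at most a small multiple of `log N`). -/
def Base (C1 C2 C3 e : ℕ) : Prop :=
  ∀ (c z k N A : ℕ) (p : unitInterval), 1 ≤ c → 1 ≤ z → C1 * c ^ e * z ≤ k → C2 * c ≤ A ^ 2 →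
    2 ^ (A * k) ≤ N → k ^ (C3 * c ^ e * z) ≤ N → (N : ℝ) ^ (-(c : ℝ) / k) ≤ p →
    (SimpleGraph.binomialRandom (Fin N) p).real {G | ∃ S q : ℕ, S ≤ N ^ z ∧ 128 * c * q ≤ k ∧
      ∃ f, GroupRefutation (k := k) G (128 * c) q S f} ≤ 1 / (N : ℝ) ^ 4

theorem super (C1 C2 C3 e : ℕ) (hB : Base C1 C2 C3 e) (c K : ℕ) (hc : 1 ≤ c) (hK : 1 ≤ K) :
    ∃ C : ℕ, 2 ≤ C ∧ ∀ (z k N : ℕ) (p : unitInterval), 1 ≤ z → C * z ≤ k → 2 ^ k ≤ N ^ K →
      k ^ (C3 * C * z) ≤ N → (N : ℝ) ^ (-(c : ℝ) / k) ≤ p →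
      (SimpleGraph.binomialRandom (Fin N) p).real {G | ∃ S q : ℕ, S ≤ N ^ z ∧ C * q ≤ k ∧
        ∃ f, GroupRefutation (k := k) G C q S f} ≤ 1 / N := by
  obtain ⟨A, hA⟩ : ∃ A, A = 64 * (C2 + 1) * c * K := ⟨_, rfl⟩
  obtain ⟨m, hm⟩ : ∃ m, m = 8 * A * K := ⟨_, rfl⟩
  obtain ⟨c', hc'⟩ : ∃ c', c' = 8 * c * m := ⟨_, rfl⟩
  obtain ⟨R, hR⟩ : ∃ R, R = 1024 * c * m := ⟨_, rfl⟩
  obtain ⟨N0, hN0⟩ : ∃ N0, N0 = (4 * m) ^ 8 + 2 ^ 20 := ⟨_, rfl⟩
  obtain ⟨X, hX⟩ : ∃ X, X = 4 * (C1 * c' ^ e * m) + 16 * c' ^ e + m + K * N0 + 2 := ⟨_, rfl⟩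
  have hA1 : 1 ≤ A := by rw [hA]; exact Nat.mul_pos (Nat.mul_pos (by positivity) hc) hK
  have hm1 : 1 ≤ m := by rw [hm]; exact Nat.mul_pos (Nat.mul_pos (by norm_num) hA1) hK
  have hcm : 1 ≤ c * m := Nat.mul_pos hc hm1
  have hc'1 : 1 ≤ c' := by rw [hc', mul_assoc]; omega
  have hR1 : 1 ≤ R := by rw [hR, mul_assoc]; omega
  have hR128 : R = 128 * c' := by rw [hR, hc']; ring
  have hXR : X ≤ R * X := Nat.le_mul_of_pos_left _ hR1
  refine ⟨R * X, by omega, ?_⟩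
  intro z k N p hz hk hkN hkz hp
  have hk1 : R * X ≤ k := le_trans (Nat.le_mul_of_pos_right _ hz) hk
  have hkpos : 0 < k := by omega
  have hX1 : 4 * (C1 * c' ^ e * m) ≤ X := by omega
  have hX2 : 16 * c' ^ e ≤ X := by omega
  have hX3 : m ≤ X := by omega
  have hX4 : K * N0 ≤ X := by omega
  have hRmk : R * m ≤ k := le_trans (Nat.mul_le_mul_left _ hX3) hk1
  have hRm : 0 < R * m := Nat.mul_pos hR1 hm1
  -- N is large
  have hNN0 : N0 ≤ N := by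
    have h1 : (2 ^ N0) ^ K ≤ N ^ K := by
      refine le_trans ?_ hkN
      rw [← pow_mul]
      refine Nat.pow_le_pow_right (by norm_num) ?_
      rw [mul_comm]
      omega
    have h2 : 2 ^ N0 ≤ N := (Nat.pow_le_pow_iff_left (by omega)).1 h1
    exact (Nat.lt_two_pow_self (n := N0)).le.trans h2
  have hN1 : (4 * m) ^ 8 ≤ N := by omega
  have hN2 : 2 ^ 20 ≤ N := by omega
  obtain ⟨N', hN'⟩ : ∃ N', N' = Nat.sqrt N := ⟨_, rfl⟩
  obtain ⟨k', hk'⟩ : ∃ k', k' = R * (k / (R * m) + 1) := ⟨_, rfl⟩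
  have hsq2 : N < (N' + 1) * (N' + 1) := by rw [hN']; exact Nat.lt_succ_sqrt N
  have hN'1 : 1024 ≤ N' := by
    rw [hN', Nat.le_sqrt]
    exact le_trans (by norm_num) hN2
  have hN'4 : N ≤ N' ^ 4 := by
    have h1 : N' + 1 ≤ N' * N' := by nlinarith
    calc N ≤ (N' + 1) * (N' + 1) := hsq2.le
      _ ≤ (N' * N') * (N' * N') := Nat.mul_le_mul h1 h1
      _ = N' ^ 4 := by ring
  have hmk' : m * k' ≤ 2 * k := by
    have h1 : R * m * (k / (R * m)) ≤ k := Nat.mul_div_le k (R * m)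
    calc m * k' = R * m * (k / (R * m)) + R * m := by rw [hk']; ring
      _ ≤ 2 * k := by omega
  have hkm : k ≤ m * k' := by
    have h1 : k < R * m * (k / (R * m) + 1) := Nat.lt_mul_div_succ k hRm
    calc k ≤ R * m * (k / (R * m) + 1) := h1.le
      _ = m * k' := by rw [hk']; ring
  have hk'pos : 0 < k' := by rw [hk']; exact Nat.mul_pos hR1 (Nat.succ_pos _)
  have hm2 : 2 ≤ m := by
    have : 1 ≤ A * K := Nat.mul_pos hA1 hK
    rw [hm, mul_assoc]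
    omega
  have hk'k : k' ≤ k := by
    have h1 : 2 * k' ≤ m * k' := Nat.mul_le_mul_right _ hm2
    omega
  obtain ⟨p', hp'⟩ : ∃ p' : unitInterval, (p' : ℝ) = (p : ℝ) ^ (m * m) :=
    ⟨⟨(p : ℝ) ^ (m * m), pow_nonneg p.2.1 _, pow_le_one₀ p.2.1 p.2.2⟩, rfl⟩
  have hNr : (1 : ℝ) ≤ N := by
    have : 1 ≤ N := by omega
    exact_mod_cast this
  have hNr0 : (0 : ℝ) < N := by linarith
  have hN'r : (1 : ℝ) ≤ N' := by
    have : 1 ≤ N' := by omega
    exact_mod_cast this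
  have hN'r0 : (0 : ℝ) < N' := by linarith
  have hkr : (0 : ℝ) < k := by exact_mod_cast hkpos
  have hk'r : (0 : ℝ) < k' := by exact_mod_cast hk'pos
  have hdir := hB c' (4 * z) k' N' A p' hc'1 (by omega) ?_ ?_ ?_ ?_ ?_
  · have h1 := step c m z k N p p' hc hm1 (by rw [← hR]; exact hRmk) hN1 hN2 hp hp' N' k' R hN' hR hk'
      (by rw [hR128]; exact hdir)
    refine le_trans ?_ h1
    refine MeasureTheory.measureReal_mono ?_
    rintro G ⟨S, q, hS, hq, f, hf⟩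
    refine ⟨S, q, hS, ?_, f, coarse hR1 (Dvd.intro _ rfl) G hf⟩
    refine le_trans ?_ hq
    exact Nat.mul_le_mul_right _ (Nat.mul_le_mul_left _ hX3)
  · -- C1 c'^e (4 z) ≤ k'
    have h1 : m * (C1 * c' ^ e * (4 * z)) ≤ m * k' := by
      refine le_trans ?_ hkm
      refine le_trans ?_ hk
      calc m * (C1 * c' ^ e * (4 * z)) = 4 * (C1 * c' ^ e * m) * z := by ring
        _ ≤ R * X * z := Nat.mul_le_mul_right _ (hX1.trans hXR)
    exact Nat.le_of_mul_le_mul_left h1 hm1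
  · -- C2 c' ≤ A ^ 2
    have h1 : C2 * c' = 64 * C2 * c * K * A := by rw [hc', hm]; ring
    rw [h1, pow_two]
    refine Nat.mul_le_mul_right _ ?_
    rw [hA]
    exact Nat.mul_le_mul_right _ (Nat.mul_le_mul_right _ (Nat.mul_le_mul_left _ (Nat.le_succ _)))
  · -- 2 ^ (A k') ≤ N'
    have h1 : (2 ^ (A * k')) ^ (4 * K) ≤ N' ^ (4 * K) := by
      calc (2 ^ (A * k')) ^ (4 * K) = 2 ^ (4 * (A * K * k')) := by rw [← pow_mul]; congr 1; ring
        _ ≤ 2 ^ k := by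
          refine Nat.pow_le_pow_right (by norm_num) ?_
          have h2 : m * k' = 8 * (A * K * k') := by rw [hm]; ring
          omega
        _ ≤ N ^ K := hkN
        _ ≤ (N' ^ 4) ^ K := Nat.pow_le_pow_left hN'4 K
        _ = N' ^ (4 * K) := by rw [← pow_mul]
    exact (Nat.pow_le_pow_iff_left (by omega)).1 h1
  · -- k' ^ (C3 c'^e (4 z)) ≤ N'
    have h1 : (k' ^ (C3 * c' ^ e * (4 * z))) ^ 4 ≤ N' ^ 4 := by
      refine le_trans ?_ hN'4
      refine le_trans ?_ hkz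
      calc (k' ^ (C3 * c' ^ e * (4 * z))) ^ 4 = k' ^ (C3 * (16 * c' ^ e) * z) := by
            rw [← pow_mul]; congr 1; ring
        _ ≤ k ^ (C3 * (16 * c' ^ e) * z) := Nat.pow_le_pow_left hk'k _
        _ ≤ k ^ (C3 * (R * X) * z) := by
            refine Nat.pow_le_pow_right hkpos ?_
            exact Nat.mul_le_mul_right _ (Nat.mul_le_mul_left _ (hX2.trans hXR))
    exact (Nat.pow_le_pow_iff_left (by omega)).1 h1
  · -- the probability
    rw [hp']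
    have hp0 : 0 < (N : ℝ) ^ (-(c : ℝ) / k) := Real.rpow_pos_of_pos hNr0 _
    refine le_trans ?_ (pow_le_pow_left₀ hp0.le hp _)
    rw [← Real.rpow_natCast ((N : ℝ) ^ (-(c : ℝ) / k)), ← Real.rpow_mul hNr0.le]
    have hN4r : (N : ℝ) ≤ (N' : ℝ) ^ (4 : ℝ) := by
      rw [show (4 : ℝ) = ((4 : ℕ) : ℝ) by norm_num, Real.rpow_natCast]
      exact_mod_cast hN'4
    have h1 : ((N' : ℝ) ^ (4 : ℝ)) ^ (-(c : ℝ) / k * ((m * m : ℕ) : ℝ)) ≤
        (N : ℝ) ^ (-(c : ℝ) / k * ((m * m : ℕ) : ℝ)) := by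
      apply Real.rpow_le_rpow_of_nonpos hNr0 hN4r
      have h2 : 0 ≤ (c : ℝ) / k * ((m * m : ℕ) : ℝ) := by positivity
      have h3 : -(c : ℝ) / k * ((m * m : ℕ) : ℝ) = -((c : ℝ) / k * ((m * m : ℕ) : ℝ)) := by ring
      rw [h3]
      linarith
    refine le_trans ?_ h1
    rw [← Real.rpow_mul hN'r0.le]
    apply Real.rpow_le_rpow_of_exponent_le hN'r
    have h2 : 4 * ((c : ℝ) * (m * m)) * k' ≤ c' * k := by
      have h3 : 4 * (c * (m * m)) * k' ≤ c' * k := by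
        calc 4 * (c * (m * m)) * k' = 4 * (c * m) * (m * k') := by ring
          _ ≤ 4 * (c * m) * (2 * k) := Nat.mul_le_mul_left _ hmk'
          _ = c' * k := by rw [hc']; ring
      exact_mod_cast h3
    have h3 : 4 * (-(c : ℝ) / k * ((m * m : ℕ) : ℝ)) = -(4 * (c * (m * m)) / k) := by
      push_cast
      ring
    have h4 : -(c' : ℝ) / k' = -(c' / k') := by ring
    rw [h3, h4, neg_le_neg_iff, div_le_div_iff₀ hkr hk'r]
    exact h2

end Pool.Agent.H49.SV
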